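import Pool.Agent.Helper971.Sq.Defs
import Pool.Agent.Helper185.BlkFinal

/-!
`Split(Ω, Ω)`: reduction to countable covers by open subsets of the Cantor space, and the
implication `Split(Ω, Ω) → Split(T, T)`.
-/

set_option autoImplicit false
set_option linter.unusedSectionVars false

namespace Pool.Agent.Helper971.SqR

open Set Filter Topology Pool.Agent.Helper185.Sel

open Pool.Agent.Helper971.Sq (Z E pts)

theorem omega_of {X : Type*} [TopologicalSpace X] {V : Set (Set X)} (ho : ∀ u ∈ V, IsOpen u)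
    (hne : univ ∉ V) (hω : ∀ F : Set X, F.Finite → ∃ u ∈ V, F ⊆ u) : V ∈ OmegaOf (OpenFam X) := by
  refine ⟨ho, ⟨?_, hne⟩, hω⟩
  rw [eq_univ_iff_forall]
  intro x
  obtain ⟨u, hu, hxu⟩ := hω {x} (finite_singleton x)
  exact ⟨u, hu, hxu rfl⟩

theorem split_XX {X : Set Z}
    (h : ∀ w : ℕ → Set Z, (∀ n, IsOpen (w n)) →
      (∀ H : Set Z, H ⊆ X → H.Finite → (E w H).Infinite) →
      ∃ Y : Set ℕ, ∀ H : Set Z, H ⊆ X → H.Finite → (E w H ∩ Y).Infinite ∧ (E w H ∩ Yᶜ).Infinite) :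
    SplitP (OmegaOf (OpenFam X)) (OmegaOf (OpenFam X)) := by
  classical
  intro U hU
  obtain ⟨u0, hu0, -⟩ := hU.2.2 ∅ finite_empty
  have hX : Nonempty X := by
    have h1 : u0 ≠ univ := fun h => hU.2.1.2 (h ▸ hu0)
    obtain ⟨z, -⟩ := (ne_univ_iff_exists_notMem _).1 h1
    exact ⟨z⟩
  obtain ⟨x0⟩ := hX
  obtain ⟨V, hVU, hVc, hVω⟩ := Pool.Agent.Helper185.Sierp.exists_countable_omega hU.1 hU.2.2
  have hne : univ ∉ V := fun h => hU.2.1.2 (hVU h)
  have hVi : V.Infinite :=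
    (Pool.Agent.Helper185.Sierp.omega_large hne hVω x0).mono (fun u hu => hu.1)
  obtain ⟨v, hv, hvV⟩ := Pool.Agent.Helper185.Blk.exists_enum_inj hVc hVi
  have hvmem : ∀ n, v n ∈ V := fun n => by rw [← hvV]; exact mem_range_self n
  choose w hw hwv using fun n => isOpen_induced_iff.1 (hU.1 _ (hVU (hvmem n)))
  have hmem : ∀ n (x : X), x ∈ v n ↔ (x : Z) ∈ w n := by
    intro n x
    rw [← hwv n]
    rfl
  have hnu : ∀ n, ∃ z, z ∉ v n := fun n =>
    (ne_univ_iff_exists_notMem _).1 (fun h => hne (h ▸ hvmem n))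
  choose z hz using hnu
  obtain ⟨Y, hY⟩ := h w hw (by
    intro H hH hHf hfin
    obtain ⟨M, hM⟩ := hfin.bddAbove
    obtain ⟨u, hu, hFu⟩ := hVω (((↑) : X → Z) ⁻¹' H ∪ z '' {k | k < M + 1})
      ((hHf.preimage Subtype.val_injective.injOn).union ((finite_lt_nat (M + 1)).image z))
    rw [← hvV] at hu
    obtain ⟨n, rfl⟩ := hu
    have h1 : n ∈ E w H := by
      intro y hy
      have h2 : (⟨y, hH hy⟩ : X) ∈ v n := hFu (Or.inl hy)
      exact (hmem n _).1 h2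
    have h2 : n < M + 1 := Nat.lt_succ_of_le (hM h1)
    exact hz n (hFu (Or.inr ⟨n, h2, rfl⟩)))
  have hom : ∀ T : Set ℕ, (∀ H : Set Z, H ⊆ X → H.Finite → (E w H ∩ T).Infinite) →
      v '' T ∈ OmegaOf (OpenFam X) := by
    intro T hT
    apply omega_of
    · rintro _ ⟨n, _, rfl⟩
      exact hU.1 _ (hVU (hvmem n))
    · rintro ⟨n, _, hn⟩
      exact hne (hn ▸ hvmem n)
    · intro F hF
      obtain ⟨n, hn, hnT⟩ := (hT (((↑) : X → Z) '' F) (by
        rintro _ ⟨x, _, rfl⟩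
        exact x.2) (hF.image _)).nonempty
      refine ⟨v n, ⟨n, hnT, rfl⟩, ?_⟩
      intro x hx
      exact (hmem n x).2 (hn _ ⟨x, hx, rfl⟩)
  refine ⟨v '' Y, U \ v '' Y, ?_, disjoint_sdiff_right, ⟨v '' Y, subset_rfl,
    hom Y (fun H h1 h2 => (hY H h1 h2).1)⟩, ⟨v '' Yᶜ, ?_, hom _ (fun H h1 h2 => (hY H h1 h2).2)⟩⟩
  · apply union_sdiff_cancel
    rintro _ ⟨n, _, rfl⟩
    exact hVU (hvmem n)
  · rintro _ ⟨n, hn, rfl⟩
    refine ⟨hVU (hvmem n), ?_⟩
    rintro ⟨m, hm, hmn⟩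
    exact hn (hv hmn ▸ hm)

theorem split_OT {X : Type*} [TopologicalSpace X]
    (h : SplitP (OmegaOf (OpenFam X)) (OmegaOf (OpenFam X))) :
    SplitP (TauOf (OpenFam X)) (TauOf (OpenFam X)) := by
  intro U hU
  rcases isEmpty_or_nonempty X with hX | hX
  · have hUe : U = ∅ := by
      rw [eq_empty_iff_forall_notMem]
      intro u hu
      have : u = univ := by
        ext x; exact (hX.false x).elim
      exact hU.2.1.2 (this ▸ hu)
    refine ⟨∅, ∅, by simp [hUe], disjoint_bot_left, ⟨∅, subset_rfl, ?_⟩, ⟨∅, subset_rfl, ?_⟩⟩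
    · rw [← hUe]; exact hU
    · rw [← hUe]; exact hU
  obtain ⟨V, W, hVW, hd, ⟨V', hV', hVo⟩, W', hW', hWo⟩ := h U (tau_sub_omega hU)
  have key : ∀ T : Set (Set X), T ⊆ U → T ∈ OmegaOf (OpenFam X) → T ∈ TauOf (OpenFam X) := by
    intro T hT hTo
    apply tau_of_lin hTo.1 hTo.2.1.2
    exact Pool.Agent.Helper185.Sierp.lin_sub (tau_iff.1 hU).2.2 hT
      (Pool.Agent.Helper185.Sierp.omega_large hTo.2.1.2 hTo.2.2)
  exact ⟨V, W, hVW, hd, ⟨V', hV', key V' (hV'.trans (hVW ▸ subset_union_left)) hVo⟩, W', hW',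
    key W' (hW'.trans (hVW ▸ subset_union_right)) hWo⟩

end Pool.Agent.Helper971.SqR
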