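import Pool.Agent.Helper971.SqR.OmegaTau
import Pool.Agent.Helper971.SqR.Split
import Pool.Agent.Helper971.Sq.P_tower
import Pool.Agent.Helper971.Sq.P_enum
import Pool.Agent.Helper971.Sq.P_final_split
import Pool.Agent.Helper971.Sq.P_not_split

/-!
Under the continuum hypothesis there is a set of reals satisfying `Split(Ω, Ω)` whose square
does not satisfy `Split(T, T)`.
-/

set_option autoImplicit false
set_option linter.unusedSectionVars false

namespace Pool.Agent.Helper971.SqR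

open Set Filter Topology Pool.Agent.Helper185.Sel

open Pool.Agent.Helper971.Sq (Z E pts D Req AI Tag Valid)

theorem exists_Z (hCH : Cardinal.aleph 1 = Cardinal.continuum.{0}) :
    ∃ X : Set Z, SplitP (OmegaOf (OpenFam X)) (OmegaOf (OpenFam X)) ∧
      ¬ SplitP (TauOf (OpenFam (Fin 2 → X))) (TauOf (OpenFam (Fin 2 → X))) := by
  obtain ⟨I, _, _, hI, C, O, U, hO, hU, hUn, hall⟩ := Sq.enum hCH
  obtain ⟨d, hd⟩ := Sq.tower hI C O U hO hU hUn
  have hmono : ∀ i j : I, i ≤ j → (d i).1 ⊆ (d j).1 := by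
    intro i j hij
    rcases eq_or_lt_of_le hij with h | h
    · rw [h]
    · exact ((hd j).2.1 i h).1
  refine ⟨pts (⋃ i, (d i).1), ?_, ?_⟩
  · refine split_XX (fun w hw hω => ?_)
    exact Sq.final_split hd (fun O' hO' => by
      obtain ⟨i, _, hi, _⟩ := hall ∅ O' univ hO' isOpen_univ univ_nonempty
      exact ⟨i, hi⟩) w hw hω
  · have hpair : ∀ p ∈ ⋃ i, (d i).1, ∀ q ∈ ⋃ i, (d i).1, ∃ i, p ∈ (d i).1 ∧ q ∈ (d i).1 := by
      intro p hp q hq
      rw [mem_iUnion] at hp hq
      obtain ⟨i, hi⟩ := hp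
      obtain ⟨j, hj⟩ := hq
      rcases le_total i j with h | h
      · exact ⟨j, hmono i j h hi, hj⟩
      · exact ⟨i, hi, hmono j i h hj⟩
    refine Sq.not_split ?_ ?_ ?_ ?_
    · intro p hp
      obtain ⟨i, hi, -⟩ := hpair p hp p hp
      have h1 := (hd i).1
      have h2 := h1.below p hi
      intro hfin
      apply h1.inf
      have h3 : (d i).2.1 ⊆ ((d i).2.1 \ p.2) ∪ p.2 := by
        intro n hn
        by_cases h : n ∈ p.2
        · exact Or.inr h
        · exact Or.inl ⟨hn, h⟩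
      exact (Set.Finite.union h2 hfin).subset h3
    · intro p hp q hq
      obtain ⟨i, hi, hj⟩ := hpair p hp q hq
      exact (hd i).1.lin p hi q hj
    · intro p hp q hq hne
      obtain ⟨i, hi, hj⟩ := hpair p hp q hq
      exact (hd i).1.tag p hi q hj hne
    · intro C' U' hU' hUn'
      obtain ⟨i, hiC, -, hiU⟩ := hall C' (fun _ => univ) U' (fun _ => isOpen_univ) hU' hUn'
      obtain ⟨p, hp, hpU, -, hpC⟩ := (hd i).2.2.2.2
      exact ⟨p, mem_iUnion.2 ⟨i, hp⟩, hiU ▸ hpU, hiC ▸ hpC⟩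

/-- Under the continuum hypothesis there is a set of reals satisfying `Split(Ω, Ω)` (hence
`Split(T, T)`) whose square does not satisfy `Split(T, T)` (hence not `Split(Ω, Ω)`). -/
theorem omega_omega (hCH : Cardinal.aleph 1 = Cardinal.continuum.{0}) :
    ∃ X : Set ℝ, SplitP (OmegaOf (OpenFam X)) (OmegaOf (OpenFam X)) ∧
      ¬ SplitP (TauOf (OpenFam (Fin 2 → X))) (TauOf (OpenFam (Fin 2 → X))) := by
  obtain ⟨X, h1, h2⟩ := exists_Z hCH
  obtain ⟨g, hg⟩ := Pool.Agent.Helper185.Silver.exists_embedding_Z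
  obtain ⟨eX⟩ := Pool.Agent.Helper185.Silver.homeo_image hg X
  refine ⟨g '' X, ?_, fun h => h2 ?_⟩
  · exact Pool.Agent.Helper185.Blk.split_transport eX (fun U hU => pull_omega eX hU)
      (fun U hU => pull_omega eX.symm hU) h1
  · have e2 : (Fin 2 → X) ≃ₜ (Fin 2 → (g '' X)) := Homeomorph.piCongrRight (fun _ => eX)
    exact Pool.Agent.Helper185.Blk.split_transport e2.symm (fun U hU => pull_tau e2.symm hU)
      (fun U hU => pull_tau e2 hU) h

end Pool.Agent.Helper971.SqR
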