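import Pool.Agent.Helper185.BlkFinal

/-!
If there is no ultrafilter generated by a chain modulo finite sets then every second countable
space satisfies `Split(T, T)`.
-/

set_option autoImplicit false
set_option linter.unusedSectionVars false

namespace Pool.Agent.Helper971.SqR

open Set Filter Topology Pool.Agent.Helper185.Sel

/-- `A` is a nonempty family of infinite sets of natural numbers, linearly ordered by inclusion
modulo finite sets, that generates (with the cofinite sets) an ultrafilter: every `Y` or its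
complement contains a member of `A` modulo a finite set -/
def ChainUltra (A : Set (Set ℕ)) : Prop :=
  A.Nonempty ∧ (∀ a ∈ A, a.Infinite) ∧ (∀ a ∈ A, ∀ b ∈ A, (a \ b).Finite ∨ (b \ a).Finite) ∧
    ∀ Y : Set ℕ, ∃ a ∈ A, (a \ Y).Finite ∨ (a \ Yᶜ).Finite

theorem split_of_no_chain {X : Type*} [TopologicalSpace X] [SecondCountableTopology X]
    (hno : ¬ ∃ A : Set (Set ℕ), ChainUltra A) :
    SplitP (TauOf (OpenFam X)) (TauOf (OpenFam X)) := by
  classical
  intro U hU
  rcases isEmpty_or_nonempty X with hX | hX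
  · have hUe : U = ∅ := by
      rw [eq_empty_iff_forall_notMem]
      intro u hu
      have : u = univ := by
        ext x; exact (hX.false x).elim
      exact hU.2.1.2 (this ▸ hu)
    refine ⟨∅, ∅, by simp [hUe], disjoint_bot_left, ⟨∅, subset_rfl, ?_⟩, ⟨∅, subset_rfl, ?_⟩⟩
    · rw [← hUe]; exact hU
    · rw [← hUe]; exact hU
  obtain ⟨V, hVU, hVc, hVt⟩ := Pool.Agent.Helper185.Sierp.exists_countable_tau hU
  obtain ⟨x0⟩ := hX
  have hVi : V.Infinite := (hVt.2.2.1 x0).mono (fun u hu => hu.1)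
  obtain ⟨v, hv, hvV⟩ := Pool.Agent.Helper185.Blk.exists_enum_inj hVc hVi
  have hvmem : ∀ n, v n ∈ V := fun n => by rw [← hvV]; exact mem_range_self n
  have hne : univ ∉ V := fun h => hU.2.1.2 (hVU h)
  have hinf : ∀ x, {n | x ∈ v n}.Infinite := by
    intro x hfin
    apply hVt.2.2.1 x
    apply (hfin.image v).subset
    rintro u ⟨hu, hxu⟩
    rw [← hvV] at hu
    obtain ⟨n, rfl⟩ := hu
    exact ⟨n, hxu, rfl⟩
  have hlin : ∀ x y, ({n | x ∈ v n} \ {n | y ∈ v n}).Finite ∨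
      ({n | y ∈ v n} \ {n | x ∈ v n}).Finite := by
    intro x y
    rcases hVt.2.2.2 x y with h | h
    · left
      have h1 : (v '' ({n | x ∈ v n} \ {n | y ∈ v n})).Finite := by
        apply h.subset
        rintro _ ⟨n, ⟨h1, h2⟩, rfl⟩
        exact ⟨hvmem n, h1, h2⟩
      exact h1.of_finite_image hv.injOn
    · right
      have h1 : (v '' ({n | y ∈ v n} \ {n | x ∈ v n})).Finite := by
        apply h.subset
        rintro _ ⟨n, ⟨h1, h2⟩, rfl⟩
        exact ⟨hvmem n, h1, h2⟩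
      exact h1.of_finite_image hv.injOn
  have hY : ∃ Y : Set ℕ, ∀ x, ({n | x ∈ v n} \ Y).Infinite ∧ ({n | x ∈ v n} \ Yᶜ).Infinite := by
    by_contra hcon
    push Not at hcon
    apply hno
    refine ⟨range (fun x => {n | x ∈ v n}), ⟨_, mem_range_self x0⟩, ?_, ?_, ?_⟩
    · rintro _ ⟨x, rfl⟩
      exact hinf x
    · rintro _ ⟨x, rfl⟩ _ ⟨y, rfl⟩
      exact hlin x y
    · intro Y
      obtain ⟨x, hx⟩ := hcon Y
      refine ⟨_, mem_range_self x, ?_⟩
      by_cases h1 : ({n | x ∈ v n} \ Y).Finite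
      · exact Or.inl h1
      · exact Or.inr (hx h1)
  obtain ⟨Y, hY⟩ := hY
  have htau : ∀ T : Set ℕ, (∀ x, ({n | x ∈ v n} ∩ T).Infinite) →
      v '' T ∈ TauOf (OpenFam X) := by
    intro T hT
    apply tau_of_lin
    · rintro _ ⟨n, _, rfl⟩
      exact hU.1 _ (hVU (hvmem n))
    · rintro ⟨n, _, hn⟩
      exact hne (hn ▸ hvmem n)
    · refine Pool.Agent.Helper185.Sierp.lin_sub (tau_iff.1 hU).2.2 ?_ ?_
      · rintro _ ⟨n, _, rfl⟩
        exact hVU (hvmem n)
      · intro x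
        apply ((hT x).image hv.injOn).mono
        rintro _ ⟨n, ⟨h1, h2⟩, rfl⟩
        exact ⟨⟨n, h2, rfl⟩, h1⟩
  refine ⟨v '' Y, U \ v '' Y, ?_, disjoint_sdiff_right, ⟨v '' Y, subset_rfl,
    htau Y (fun x => ?_)⟩, ⟨v '' Yᶜ, ?_, htau _ (fun x => (hY x).1)⟩⟩
  · apply union_sdiff_cancel
    rintro _ ⟨n, _, rfl⟩
    exact hVU (hvmem n)
  · have := (hY x).2
    rwa [Set.sdiff_compl] at this
  · rintro _ ⟨n, hn, rfl⟩
    refine ⟨hVU (hvmem n), ?_⟩
    rintro ⟨m, hm, hmn⟩
    exact hn (hv hmn ▸ hm)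

end Pool.Agent.Helper971.SqR
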