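import Pool.Agent.Helper185.BlkFinal

/-!
Under the continuum hypothesis, `Split(Ω, T)` is not preserved by squares.
-/

set_option autoImplicit false
set_option linter.unusedSectionVars false

namespace Pool.Agent.Helper971.SqR

open Set Filter Topology Pool.Agent.Helper185.Silver Pool.Agent.Helper185.Sel
  Pool.Agent.Helper185.Blk

section

variable {I : Type} [LinearOrder I] [WellFoundedLT I]
variable {B : I → Set ℕ} {O : I → ℕ → Set (Set ℕ)} {p : I → ℕ → Finset ℕ}

theorem exists_min (hp : ∀ i, Req B O i (fun j _ => p j) (p i)) (x0 : XT p) (F : Set (XT p))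
    (hF : F.Finite) : ∃ x : XT p, Sub (supp x) (supp x0) ∧ ∀ y ∈ F, Sub (supp x) (supp y) := by
  induction F, hF using Set.Finite.induction_on with
  | empty => exact ⟨x0, (EqS.refl _).sub, fun y hy => hy.elim⟩
  | insert _ _ ih =>
    rename_i a F _ _
    obtain ⟨x, hx0, hx⟩ := ih
    rcases XT_lin hp x a with h | h
    · refine ⟨x, hx0, ?_⟩
      rintro y (rfl | hy)
      · exact h
      · exact hx y hy
    · refine ⟨a, h.trans hx0, ?_⟩
      rintro y (rfl | hy)
      · exact (EqS.refl _).sub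
      · exact h.trans (hx y hy)

theorem supp_infinite (hp : ∀ i, Req B O i (fun j _ => p j) (p i)) (x : XT p) :
    (supp x).Infinite := by
  obtain ⟨x, i, hi⟩ := x
  intro hfin
  apply UU_infinite (hp i).1 infinite_univ
  obtain ⟨N, hN⟩ := hi
  apply (hfin.union (finite_lt_nat N)).subset
  intro n hn
  by_cases h1 : n < N
  · exact Or.inr h1
  · exact Or.inl ((hN n (not_lt.1 h1)).2 hn)

theorem exists_common (hp : ∀ i, Req B O i (fun j _ => p j) (p i)) (x0 : XT p)
    (F : Set (XT p)) (hF : F.Finite) : ∃ n, n ∈ supp x0 ∧ ∀ y ∈ F, n ∈ supp y := by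
  obtain ⟨x, hx0, hx⟩ := exists_min hp x0 F hF
  have h1 : ∀ y : XT p, Sub (supp x) (supp y) → (supp x \ supp y).Finite := by
    rintro y ⟨N, hN⟩
    apply (finite_lt_nat N).subset
    rintro n ⟨h1, h2⟩
    by_contra hcon
    exact h2 (hN n (le_of_not_gt (fun h' => hcon h')) h1)
  have h2 : ((supp x \ supp x0) ∪ ⋃ y ∈ F, (supp x \ supp y)).Finite :=
    (h1 x0 hx0).union (hF.biUnion (fun y hy => h1 y (hx y hy)))
  obtain ⟨n, hn, hn'⟩ := ((supp_infinite hp x).sdiff h2).nonempty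
  refine ⟨n, ?_, ?_⟩
  · by_contra hc
    exact hn' (Or.inl ⟨hn, hc⟩)
  · intro y hy
    by_contra hc
    exact hn' (Or.inr (mem_biUnion hy ⟨hn, hc⟩))

/-- finite modifications -/
theorem modif (hp : ∀ i, Req B O i (fun j _ => p j) (p i)) [Nonempty I] (s : Finset ℕ) (k : ℕ) :
    ∃ x : XT p, (k ∉ s → (x : Z) k = false) ∧ ∀ n ∈ s, (x : Z) n = true := by
  obtain ⟨i0⟩ := (inferInstance : Nonempty I)
  refine ⟨⟨ch ((UU (p i0) univ \ {k}) ∪ s), ch_mem p i0 ⟨max (s.sup id + 1) (k + 1), ?_⟩⟩, ?_, ?_⟩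
  · intro n hn
    have h1 := le_of_max_le_left hn
    have h2 := le_of_max_le_right hn
    constructor
    · rintro (h3 | h3)
      · exact h3.1
      · have h4 : n ≤ s.sup id := Finset.le_sup (f := id) (Finset.mem_coe.1 h3)
        omega
    · intro h3
      refine Or.inl ⟨h3, ?_⟩
      intro h4
      rw [mem_singleton_iff] at h4
      omega
  · intro hk
    simp [ch, hk]
  · intro n hn
    simp [ch, hn]

theorem not_choose_sq [Nonempty I] (hp : ∀ i, Req B O i (fun j _ => p j) (p i))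
    (hall : ∀ C : Set ℕ, ∃ i, B i = C) :
    ¬ Choose (OmegaOf (OpenFam (Fin 2 → XT p))) (TauOf (OpenFam (Fin 2 → XT p))) := by
  classical
  intro h
  obtain ⟨i0⟩ := (inferInstance : Nonempty I)
  let x0 : XT p := ⟨ch (UU (p i0) univ), ch_mem p i0 (EqS.refl _)⟩
  let c : ℕ → Set (Fin 2 → XT p) := fun n => {f | (f 1 : Z) n = true → (f 0 : Z) n = true}
  have hcinj : Function.Injective c := by
    intro a b hab
    by_contra hne
    -- a pair in `c b` but not in `c a`: f 1 contains a, f 0 does not contain a but contains b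
    obtain ⟨y, hy1, hy2⟩ := modif hp {a} b
    obtain ⟨x, hx1, hx2⟩ := modif hp {b} a
    have h1 : (![x, y] : Fin 2 → XT p) ∈ c b := by
      intro _
      exact hx2 b (Finset.mem_singleton_self b)
    rw [← hab] at h1
    have h2 : (x : Z) a = true := h1 (hy2 a (Finset.mem_singleton_self a))
    have h3 : (x : Z) a = false := hx1 (by
      rw [Finset.mem_singleton]
      exact hne)
    rw [h2] at h3
    cases h3
  have hcu : ∀ n, c n ≠ univ := by
    intro n hn
    obtain ⟨y, hy1, hy2⟩ := modif hp {n} n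
    obtain ⟨x, hx1, hx2⟩ := modif hp ∅ n
    have h1 : (![x, y] : Fin 2 → XT p) ∈ c n := by rw [hn]; trivial
    have h2 : (x : Z) n = true := h1 (hy2 n (Finset.mem_singleton_self n))
    rw [hx1 (by simp)] at h2
    cases h2
  have hco : ∀ n, IsOpen (c n) := by
    intro n
    have h0 : Continuous (fun z : Z => z n) := continuous_apply n
    have h1 : ∀ i : Fin 2, Continuous (fun f : Fin 2 → XT p => (f i : Z) n) := fun i =>
      h0.comp (continuous_subtype_val.comp (continuous_apply i))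
    have h2 : c n = (fun f : Fin 2 → XT p => ((f 1 : Z) n, (f 0 : Z) n)) ⁻¹'
        {q | q.1 = true → q.2 = true} := rfl
    rw [h2]
    exact (isOpen_discrete _).preimage ((h1 1).prodMk (h1 0))
  have homega : c '' (supp x0) ∈ OmegaOf (OpenFam (Fin 2 → XT p)) := by
    have key : ∀ F : Set (Fin 2 → XT p), F.Finite → ∃ u ∈ c '' (supp x0), F ⊆ u := by
      intro F hF
      obtain ⟨n, hn0, hn⟩ := exists_common hp x0 ((fun f : Fin 2 → XT p => f 0) '' F)
        (hF.image _)
      refine ⟨c n, ⟨n, hn0, rfl⟩, ?_⟩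
      intro f hf _
      exact hn (f 0) ⟨f, hf, rfl⟩
    refine ⟨?_, ⟨?_, ?_⟩, key⟩
    · rintro _ ⟨n, _, rfl⟩
      exact hco n
    · rw [eq_univ_iff_forall]
      intro f
      obtain ⟨u, hu, hfu⟩ := key {f} (finite_singleton f)
      exact ⟨u, hu, hfu rfl⟩
    · rintro ⟨n, _, hn⟩
      exact hcu n hn
  obtain ⟨V, hVU, hV⟩ := h _ homega
  let z : Set ℕ := {n | n ∈ supp x0 ∧ c n ∈ V}
  have hVz : V = c '' z := by
    ext u
    constructor
    · intro hu
      obtain ⟨n, hn, rfl⟩ := hVU hu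
      exact ⟨n, ⟨hn, hu⟩, rfl⟩
    · rintro ⟨n, hn, rfl⟩
      exact hn.2
  have hzinf : ∀ f : Fin 2 → XT p, {n | n ∈ z ∧ f ∈ c n}.Infinite := by
    intro f hfin
    apply hV.2.2.1 f
    apply (hfin.image c).subset
    rintro u ⟨hu, hfu⟩
    rw [hVz] at hu
    obtain ⟨n, hn, rfl⟩ := hu
    exact ⟨n, ⟨hn, hfu⟩, rfl⟩
  -- a point splitting an infinite set
  have hsplit : ∀ s : Set ℕ, s.Infinite → ∃ x : XT p, (s \ supp x).Infinite := by
    intro s hs
    obtain ⟨i, hi⟩ := hall s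
    refine ⟨⟨ch (UU (p i) univ), ch_mem p i (EqS.refl _)⟩, ?_⟩
    have := (hp i).2.2.1 (by rw [hi]; exact hs)
    rw [hi] at this
    change (s \ supp (ch (UU (p i) univ))).Infinite
    rw [supp_ch]
    exact this
  have hz : z.Infinite := (hzinf ![x0, x0]).mono (fun n hn => hn.1)
  obtain ⟨x1, hx1⟩ := hsplit z hz
  have hz1 : (z ∩ supp x1).Infinite := by
    apply (hzinf ![x1, x0]).mono
    rintro n ⟨hn, hn2⟩
    exact ⟨hn, hn2 hn.1⟩
  obtain ⟨x2, hx2⟩ := hsplit _ hz1
  rcases hV.2.2.2 ![x1, x0] ![x2, x1] with hfin | hfin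
  · apply hx2
    have h1 : (c '' ((z ∩ supp x1) \ supp x2)).Finite := by
      apply hfin.subset
      rintro _ ⟨n, ⟨⟨hn1, hn2⟩, hn3⟩, rfl⟩
      refine ⟨hn1.2, ?_, ?_⟩
      · intro _
        exact hn2
      · intro h4
        exact hn3 (h4 hn2)
    exact h1.of_finite_image hcinj.injOn
  · apply hx1
    have h1 : (c '' (z \ supp x1)).Finite := by
      apply hfin.subset
      rintro _ ⟨n, ⟨hn1, hn2⟩, rfl⟩
      refine ⟨hn1.2, ?_, ?_⟩
      · intro h5
        exact absurd h5 hn2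
      · intro h4
        exact hn2 (h4 hn1.1)
    exact h1.of_finite_image hcinj.injOn

end

/-- Under the continuum hypothesis there is a set of reals satisfying `Split(Ω, T)` whose square
does not. -/
theorem omega_tau (hCH : Cardinal.aleph 1 = Cardinal.continuum.{0}) :
    ∃ X : Set ℝ, SplitP (OmegaOf (OpenFam X)) (TauOf (OpenFam X)) ∧
      ¬ SplitP (OmegaOf (OpenFam (Fin 2 → X))) (TauOf (OpenFam (Fin 2 → X))) := by
  obtain ⟨I, _, _, hI, B, O, hO, hBO⟩ := Pool.Agent.Helper185.Blk.exists_enumeration hCH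
  obtain ⟨p, hp⟩ := Pool.Agent.Helper185.Blk.exists_tower hI B O hO
  have hU : ∀ n : ℕ, Op ((fun _ => univ : ℕ → Set (Set ℕ)) n) := fun n A _ => ⟨0, fun _ _ => trivial⟩
  have : Nonempty I := by
    obtain ⟨i, -⟩ := hBO ∅ (fun _ => univ) hU
    exact ⟨i⟩
  have h1 : SplitP (OmegaOf (OpenFam (XT p))) (TauOf (OpenFam (XT p))) :=
    split_XT hp (fun W hW => by
      obtain ⟨i, _, hi⟩ := hBO ∅ W hW
      exact ⟨i, hi⟩)
  have h2 : ¬ Choose (OmegaOf (OpenFam (Fin 2 → XT p))) (TauOf (OpenFam (Fin 2 → XT p))) :=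
    not_choose_sq hp (fun C => by
      obtain ⟨i, hi, _⟩ := hBO C (fun _ => univ) hU
      exact ⟨i, hi⟩)
  obtain ⟨g, hg⟩ := exists_embedding_Z
  obtain ⟨eX⟩ := homeo_image hg (XT p)
  refine ⟨g '' XT p, ?_, fun h => h2 ?_⟩
  · exact split_transport eX (fun U hU => pull_omega eX hU) (fun U hU => pull_tau eX.symm hU) h1
  · have e2 : (Fin 2 → XT p) ≃ₜ (Fin 2 → (g '' XT p)) := Homeomorph.piCongrRight (fun _ => eX)
    exact choose_transport e2.symm (fun U hU => pull_omega e2.symm hU)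
      (fun U hU => pull_tau e2 hU) (split_choose h)

end Pool.Agent.Helper971.SqR
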